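import Pool.Agent.Helper74.LineArr.Few

/-!
# Multiplicity vectors of line arrangements: an explicit finite list for every number of
multiple vertices

Fix `m`.  A pair `(e, d)` belongs to the list `Config m` when there are `m` distinct points and
`e` distinct lines, each line through at least two of the points, exactly `d i` of the lines
through the `i`-th point, and no other point on three of the lines.  Then `e ≤ C(m, 2)` and
`d i ≤ m - 1`, and an arrangement of `n` lines whose vertices of multiplicity at least three
have the multiplicities `r 1, ..., r m` exists if and only if `d ≤ r` and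
`e + ∑ r ≤ n + ∑ d` for some pair of the list.
-/

namespace Pool.Agent.Results.MP_09693b_co.ConfigurationBasis

open Pool.Agent.Helper74.LineArr

open scoped Classical in
/-- The pairs `(number of lines, numbers of lines through the points)` of the systems of `m`
distinct points and finitely many distinct lines, each line through at least two of the points,
such that every other point is on at most two of the lines. -/
def Config (m : ℕ) : Set (ℕ × (Fin m → ℕ)) :=
  {x | ∃ (pts : Fin m → PP) (L : Finset PP), Function.Injective pts ∧ L.card = x.1 ∧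
    (∀ i, (L.filter (fun l => (pts i).orthogonal l)).card = x.2 i) ∧
    (∀ l ∈ L, ∃ i j, i ≠ j ∧ (pts i).orthogonal l ∧ (pts j).orthogonal l) ∧
    ∀ q, (∀ i, q ≠ pts i) → (L.filter (fun l => q.orthogonal l)).card ≤ 2}

lemma double_count_h12 (A M : Finset PP) :
    ∑ p ∈ M, mult A p = ∑ l ∈ A, mult M l := by
  classical
  unfold mult
  have h := Finset.sum_card_bipartiteAbove_eq_sum_card_bipartiteBelow
    (s := M) (t := A) (fun p l => p.orthogonal l)
  unfold Finset.bipartiteAbove Finset.bipartiteBelow at h
  rw [h]
  apply Finset.sum_congr rfl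
  intro l _
  congr 1
  ext p
  simp only [Finset.mem_filter]
  rw [Projectivization.orthogonal_comm]

lemma mult_mono_h12 {A B : Finset PP} (h : A ⊆ B) (p : PP) : mult A p ≤ mult B p := by
  classical
  unfold mult
  exact Finset.card_le_card (Finset.filter_subset_filter _ h)

lemma card_le_choose_h12 (L P : Finset PP) (h : ∀ l ∈ L, 2 ≤ mult P l) :
    L.card ≤ P.card.choose 2 := by
  classical
  rw [← sum_mult P]
  calc L.card = ∑ _l ∈ L, 1 := by simp
    _ ≤ ∑ l ∈ L, (mult P l).choose 2 := by
        apply Finset.sum_le_sum
        intro l hl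
        exact Nat.choose_pos (h l hl)
    _ ≤ ∑ l ∈ verts P, (mult P l).choose 2 := by
        apply Finset.sum_le_sum_of_subset
        intro l hl
        rw [mem_verts]
        exact h l hl

/-- A marked form of realizability. -/
def HasPts (n m : ℕ) (r : Fin m → ℕ) : Prop :=
  ∃ A : Finset PP, A.card = n ∧ (∀ p : PP, ∃ l ∈ A, ¬ p.orthogonal l) ∧
    ∃ pts : Fin m → PP, Function.Injective pts ∧ (∀ i, mult A (pts i) = r i) ∧
      ∀ q, (∀ i, q ≠ pts i) → mult A q ≤ 2

lemma hasPts_iff {n m : ℕ} (r : Fin m → ℕ) (hr : ∀ i, r i ∈ Finset.Icc 3 (n - 1)) :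
    HasPts n m r ↔ ∃ v : ℕ → ℕ, Realizable n v ∧
      ∀ k ∈ Finset.Icc 3 (n - 1), v k = (Finset.univ.filter (fun i => r i = k)).card := by
  classical
  constructor
  · rintro ⟨A, hA, hc, pts, hinj, h1, h2⟩
    refine ⟨vnum A, ⟨A, hA, hc, fun k _ _ => rfl⟩, ?_⟩
    intro k hk
    rw [Finset.mem_Icc] at hk
    exact vnum_of_pts A pts hinj r h1 h2 hk.1
  · rintro ⟨v, ⟨A, hA, hc, hv⟩, hr'⟩
    -- fibres have the same size
    have hfib : ∀ k, Fintype.card {i : Fin m // r i = k}
        = Fintype.card {p : {p // p ∈ multi A} // mult A p.1 = k} := by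
      intro k
      have e1 : Fintype.card {p : {p // p ∈ multi A} // mult A p.1 = k}
          = ((multi A).filter (fun p => mult A p = k)).card := by
        rw [Fintype.card_subtype]
        rw [← Finset.card_image_of_injective _ Subtype.val_injective]
        congr 1
        ext q
        simp only [Finset.mem_image, Finset.mem_filter, Finset.mem_univ, true_and,
          Subtype.exists, exists_and_right, exists_eq_right]
        constructor
        · rintro ⟨a, b⟩
          exact ⟨a, b⟩
        · rintro ⟨a, b⟩
          exact ⟨a, b⟩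
      rw [e1, Fintype.card_subtype]
      by_cases hk : k ∈ Finset.Icc 3 (n - 1)
      · rw [← hr' k hk]
        rw [Finset.mem_Icc] at hk
        rw [← hv k (by omega) hk.2, vnum_eq_card A (by omega : 2 ≤ k)]
        congr 1
        ext q
        simp only [Finset.mem_filter, mem_multi, mem_verts]
        omega
      · have z1 : Finset.univ.filter (fun i => r i = k) = ∅ := by
          rw [Finset.filter_eq_empty_iff]
          intro i _ hi
          apply hk
          rw [← hi]
          exact hr i
        have z2 : (multi A).filter (fun p => mult A p = k) = ∅ := by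
          rw [Finset.filter_eq_empty_iff]
          intro p hp hpk
          apply hk
          rw [← hpk, Finset.mem_Icc]
          have := mult_lt_card hc p
          exact ⟨mem_multi.mp hp, by omega⟩
        rw [z1, z2, Finset.card_empty, Finset.card_empty]
    let e : Fin m ≃ {p // p ∈ multi A} :=
      (Equiv.sigmaFiberEquiv r).symm.trans
        ((Equiv.sigmaCongrRight (fun k => Fintype.equivOfCardEq (hfib k))).trans
          (Equiv.sigmaFiberEquiv (fun p : {p // p ∈ multi A} => mult A p.1)))
    have he : ∀ i, mult A (e i).1 = r i := by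
      intro i
      exact (Fintype.equivOfCardEq (hfib (r i)) ⟨i, rfl⟩).2
    refine ⟨A, hA, hc, fun i => (e i).1, Subtype.val_injective.comp e.injective, he, ?_⟩
    intro q hq
    by_contra hcon
    have hqm : q ∈ multi A := mem_multi.mpr (by omega)
    apply hq (e.symm ⟨q, hqm⟩)
    change q = (e (e.symm ⟨q, hqm⟩)).1
    rw [Equiv.apply_symm_apply]

lemma config_iff_h12 {m : ℕ} (x : ℕ × (Fin m → ℕ)) :
    x ∈ Config m ↔ ∃ (pts : Fin m → PP) (L : Finset PP), Function.Injective pts ∧
      L.card = x.1 ∧ (∀ i, mult L (pts i) = x.2 i) ∧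
      (∀ l ∈ L, ∃ i j, i ≠ j ∧ (pts i).orthogonal l ∧ (pts j).orthogonal l) ∧
      ∀ q, (∀ i, q ≠ pts i) → mult L q ≤ 2 := by
  unfold Config mult
  rfl

open scoped Classical in
lemma two_le_mult_h12 {m : ℕ} {pts : Fin m → PP} (hinj : Function.Injective pts) {l : PP}
    (h : ∃ i j, i ≠ j ∧ (pts i).orthogonal l ∧ (pts j).orthogonal l) :
    2 ≤ mult (Finset.univ.image pts) l := by
  classical
  obtain ⟨i, j, hij, hi, hj⟩ := h
  unfold mult
  rw [show (2 : ℕ) = 1 + 1 from rfl, Nat.succ_le_iff, Finset.one_lt_card]
  refine ⟨pts i, ?_, pts j, ?_, fun h => hij (hinj h)⟩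
  · rw [Finset.mem_filter]
    exact ⟨Finset.mem_image_of_mem _ (Finset.mem_univ i),
      Projectivization.orthogonal_comm.mp hi⟩
  · rw [Finset.mem_filter]
    exact ⟨Finset.mem_image_of_mem _ (Finset.mem_univ j),
      Projectivization.orthogonal_comm.mp hj⟩

open scoped Classical in
lemma exists_two_h12 {m : ℕ} {pts : Fin m → PP} {l : PP}
    (h : 2 ≤ mult (Finset.univ.image pts) l) :
    ∃ i j, i ≠ j ∧ (pts i).orthogonal l ∧ (pts j).orthogonal l := by
  classical
  unfold mult at h
  obtain ⟨a, ha, b, hb, hab⟩ := Finset.one_lt_card.mp (show 1 < _ from h)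
  rw [Finset.mem_filter, Finset.mem_image] at ha hb
  obtain ⟨⟨i, -, rfl⟩, hi⟩ := ha
  obtain ⟨⟨j, -, rfl⟩, hj⟩ := hb
  refine ⟨i, j, fun h => hab (by rw [h]), Projectivization.orthogonal_comm.mp hi,
    Projectivization.orthogonal_comm.mp hj⟩

theorem result (m : ℕ) :
    (∀ x ∈ Config m, x.1 ≤ m.choose 2 ∧ ∀ i, x.2 i ≤ m - 1) ∧
    ∀ n : ℕ, 3 ≤ n → ∀ r : Fin m → ℕ, (∀ i, r i ∈ Finset.Icc 3 (n - 1)) →
      ((∃ v : ℕ → ℕ, Realizable n v ∧
          ∀ k ∈ Finset.Icc 3 (n - 1), v k = (Finset.univ.filter (fun i => r i = k)).card) ↔
        ∃ x ∈ Config m, (∀ i, x.2 i ≤ r i) ∧ x.1 + ∑ i, r i ≤ n + ∑ i, x.2 i) := by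
  classical
  constructor
  · intro x hx
    rw [config_iff_h12] at hx
    obtain ⟨pts, L, hinj, h1, h2, h3, h4⟩ := hx
    constructor
    · have h5 := card_le_choose_h12 L (Finset.univ.image pts)
        (fun l hl => two_le_mult_h12 hinj (h3 l hl))
      rw [Finset.card_image_of_injective _ hinj, Finset.card_univ, Fintype.card_fin] at h5
      omega
    · intro i
      rw [← h2 i]
      -- another marked point on each line through the `i`-th one
      have h6 : ∀ l, l ∈ L → (pts i).orthogonal l → ∃ j, j ≠ i ∧ (pts j).orthogonal l := by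
        intro l hl _
        obtain ⟨a, b, hab, ha, hb⟩ := h3 l hl
        by_cases hai : a = i
        · exact ⟨b, fun h => hab (by rw [hai, h]), hb⟩
        · exact ⟨a, hai, ha⟩
      have : Nonempty (Fin m) := ⟨i⟩
      choose! f hf using h6
      have h7 : (L.filter (fun l => (pts i).orthogonal l)).card
          ≤ ((Finset.univ : Finset (Fin m)).erase i).card := by
        apply Finset.card_le_card_of_injOn f
        · intro l hl
          rw [Finset.mem_coe, Finset.mem_filter] at hl
          rw [Finset.mem_coe, Finset.mem_erase]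
          exact ⟨(hf l hl.1 hl.2).1, Finset.mem_univ _⟩
        · intro l hl l' hl' hll
          rw [Finset.mem_coe, Finset.mem_filter] at hl hl'
          have g1 := hf l hl.1 hl.2
          have g2 := hf l' hl'.1 hl'.2
          rw [← hll] at g2
          rcases uniq hl.2 g1.2 hl'.2 g2.2 with h | h
          · exact absurd (hinj h).symm g1.1
          · exact h
      rw [Finset.card_erase_of_mem (Finset.mem_univ i), Finset.card_univ, Fintype.card_fin] at h7
      unfold mult
      exact h7
  · intro n hn r hr
    rw [← hasPts_iff r hr]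
    constructor
    · rintro ⟨A, hA, hc, pts, hinj, h1, h2⟩
      have hLA : A.filter (fun l => 2 ≤ mult (Finset.univ.image pts) l) ⊆ A :=
        Finset.filter_subset _ _
      refine ⟨((A.filter (fun l => 2 ≤ mult (Finset.univ.image pts) l)).card,
        fun i => mult (A.filter (fun l => 2 ≤ mult (Finset.univ.image pts) l)) (pts i)),
        ?_, ?_, ?_⟩
      · rw [config_iff_h12]
        refine ⟨pts, A.filter (fun l => 2 ≤ mult (Finset.univ.image pts) l), hinj, rfl,
          fun i => rfl, ?_, ?_⟩
        · intro l hl
          exact exists_two_h12 (Finset.mem_filter.mp hl).2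
        · intro q hq
          exact (mult_mono_h12 hLA q).trans (h2 q hq)
      · intro i
        rw [← h1 i]
        exact mult_mono_h12 hLA _
      · simp only
        have e1 : ∀ B : Finset PP, ∑ i, mult B (pts i)
            = ∑ l ∈ B, mult (Finset.univ.image pts) l := by
          intro B
          rw [← double_count_h12 B (Finset.univ.image pts),
            Finset.sum_image (fun _ _ _ _ h => hinj h)]
        have e2 : ∑ i, r i = ∑ i, mult A (pts i) :=
          Finset.sum_congr rfl (fun i _ => (h1 i).symm)
        rw [e2, e1, e1]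
        have k1 : ∑ l ∈ A, mult (Finset.univ.image pts) l
            = ∑ l ∈ A.filter (fun l => 2 ≤ mult (Finset.univ.image pts) l),
                mult (Finset.univ.image pts) l
              + ∑ l ∈ A.filter (fun l => ¬ 2 ≤ mult (Finset.univ.image pts) l),
                mult (Finset.univ.image pts) l :=
          (Finset.sum_filter_add_sum_filter_not A _ _).symm
        have k2 : ∑ l ∈ A.filter (fun l => ¬ 2 ≤ mult (Finset.univ.image pts) l),
              mult (Finset.univ.image pts) l
            ≤ (A.filter (fun l => ¬ 2 ≤ mult (Finset.univ.image pts) l)).card := by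
          rw [Finset.card_eq_sum_ones]
          apply Finset.sum_le_sum
          intro l hl
          have := (Finset.mem_filter.mp hl).2
          omega
        have k3 := Finset.card_filter_add_card_filter_not (s := A)
          (fun l => 2 ≤ mult (Finset.univ.image pts) l)
        omega
    · rintro ⟨x, hx, hle, hsum⟩
      rw [config_iff_h12] at hx
      obtain ⟨pts, L, hinj, h1, h2, h3, h4⟩ := hx
      obtain ⟨A', g1, g2, g3⟩ := raise pts hinj r L (fun i => by rw [h2]; exact hle i)
      simp only [h2] at g1
      obtain ⟨A'', k1, k2, k3⟩ := add_generic A' (Finset.univ.image pts) (n - A'.card)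
      have hcard : A''.card = n := by omega
      have e1 : ∀ i, mult A'' (pts i) = r i := by
        intro i
        rw [k2 _ (Finset.mem_image_of_mem _ (Finset.mem_univ i)), g2]
      have e2 : ∀ q, (∀ i, q ≠ pts i) → mult A'' q ≤ 2 := by
        intro q hq
        have h0 := h4 q hq
        rcases k3 q with h | h
        · rw [h]
          rcases g3 q hq with h' | h'
          · omega
          · exact h'
        · exact h
      refine ⟨A'', hcard, ?_, pts, hinj, e1, e2⟩
      apply no_common_of_mult_lt
      intro p
      rw [hcard]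
      by_cases hp : ∃ i, p = pts i
      · obtain ⟨i, rfl⟩ := hp
        rw [e1]
        have := Finset.mem_Icc.mp (hr i)
        omega
      · push Not at hp
        have := e2 p hp
        omega

end Pool.Agent.Results.MP_09693b_co.ConfigurationBasis
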