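import Pool.Agent.Helper74.LineArr.Def

/-!
# Multiplicity vectors of line arrangements with few multiple points

Let `m` be the number of vertices of multiplicity at least three.  If every such vertex has
multiplicity at least `m - 2` (for instance if `m ≤ 5`), the realizable vectors are determined:
besides the identity counting pairs of lines, the sharp condition is
`∑_{k ≥ 3} k v_k + ⌈v_{m-2} / 3⌉ ≤ n + C(m, 2)`.
-/

namespace Pool.Agent.Results.MP_09693b_co.FewMultiple

open Pool.Agent.Helper74.LineArr

theorem result (n : ℕ) (hn : 3 ≤ n) (v : ℕ → ℕ)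
    (hlarge : ∀ k ∈ Finset.Icc 3 (n - 1), v k ≠ 0 →
      ∑ j ∈ Finset.Icc 3 (n - 1), v j ≤ k + 2) :
    Realizable n v ↔
      (∑ k ∈ Finset.Icc 2 (n - 1), k.choose 2 * v k = n.choose 2 ∧
        3 * ∑ k ∈ Finset.Icc 3 (n - 1), k * v k
          + ∑ k ∈ Finset.Icc 3 (n - 1) with k + 2 = ∑ j ∈ Finset.Icc 3 (n - 1), v j, v k
          ≤ 3 * (n + (∑ k ∈ Finset.Icc 3 (n - 1), v k).choose 2)) := by
  classical
  set m := ∑ k ∈ Finset.Icc 3 (n - 1), v k with hm
  constructor
  · rintro ⟨A, hA, hc, hv⟩
    constructor
    · have h := sum_choose_vnum A hc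
      rw [hA] at h
      rw [← h]
      apply Finset.sum_congr rfl
      intro k hk
      rw [Finset.mem_Icc] at hk
      rw [hv k hk.1 hk.2]
    · have hf : ∀ f : ℕ → ℕ, ∑ p ∈ multi A, f (mult A p)
          = ∑ k ∈ Finset.Icc 3 (n - 1), f k * v k := by
        intro f
        have h1 := sum_multi A hc f
        rw [h1, hA]
        apply Finset.sum_congr rfl
        intro k hk
        rw [Finset.mem_Icc] at hk
        rw [hv k (by omega) hk.2]
      have h4 : (multi A).card = m := by
        have h2 := hf (fun _ => 1)
        rw [Finset.sum_const, smul_eq_mul, mul_one] at h2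
        rw [h2, hm]
        simp
      have h3 := sum_mult_le_def A (multi A) ((multi A).filter (fun p => mult A p + 2 = m))
        (Finset.filter_subset _ _) (by
          intro p hp
          rw [h4]
          exact (Finset.mem_filter.mp hp).2)
      have h5 : ∑ p ∈ multi A, mult A p = ∑ k ∈ Finset.Icc 3 (n - 1), k * v k := hf id
      have h6 : ((multi A).filter (fun p => mult A p + 2 = m)).card
          = ∑ k ∈ Finset.Icc 3 (n - 1) with k + 2 = m, v k := by
        rw [Finset.card_filter, hf (fun k => if k + 2 = m then 1 else 0), Finset.sum_filter]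
        apply Finset.sum_congr rfl
        intro k _
        split_ifs <;> simp
      rw [h4, h5, h6, hA] at h3
      exact h3
  · rintro ⟨hid, hle⟩
    -- an index type for the multiple points
    let ι : Type := Σ k : {k : ℕ // k ∈ Finset.Icc 3 (n - 1)}, Fin (v k.1)
    have hcard : Fintype.card ι = m := by
      rw [Fintype.card_sigma]
      simp only [Fintype.card_fin]
      rw [hm]
      exact (Finset.sum_coe_sort (Finset.Icc 3 (n - 1)) v)
    let e : ι ≃ Fin m := Fintype.equivFinOfCardEq hcard
    let r : Fin m → ℕ := fun i => (e.symm i).1.1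
    have hr3 : ∀ i, r i ∈ Finset.Icc 3 (n - 1) := fun i => (e.symm i).1.2
    have hrm : ∀ i, m ≤ r i + 2 := by
      intro i
      have h1 : v (r i) ≠ 0 := by
        have := (e.symm i).2.isLt
        intro h
        change (e.symm i).2.val < v (r i) at this
        omega
      exact hlarge (r i) (hr3 i) h1
    have hsum : ∀ f : ℕ → ℕ, ∑ i, f (r i) = ∑ k ∈ Finset.Icc 3 (n - 1), f k * v k := by
      intro f
      have h1 : ∑ i, f (r i) = ∑ x : ι, f x.1.1 := by
        rw [← Equiv.sum_comp e]
        apply Finset.sum_congr rfl
        intro x _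
        change f (e.symm (e x)).1.1 = _
        rw [Equiv.symm_apply_apply]
      rw [h1, Fintype.sum_sigma]
      simp only [Finset.sum_const, Finset.card_univ, Fintype.card_fin, smul_eq_mul]
      rw [Finset.sum_coe_sort (Finset.Icc 3 (n - 1)) (fun k => v k * f k)]
      apply Finset.sum_congr rfl
      intro k _
      ring
    have hs := hsum id
    simp only [id] at hs
    rw [← hs] at hle
    obtain ⟨a, ha⟩ : ∃ a, a = (Finset.univ.filter (fun i => r i + 2 = m)).card := ⟨_, rfl⟩
    have ha' : ∑ k ∈ Finset.Icc 3 (n - 1) with k + 2 = m, v k = a := by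
      rw [ha, Finset.card_filter, hsum (fun k => if k + 2 = m then 1 else 0), Finset.sum_filter]
      apply Finset.sum_congr rfl
      intro k _
      split_ifs <;> simp
    rw [ha'] at hle
    have ham : a ≤ m := by
      rw [ha]
      exact (Finset.card_filter_le _ _).trans (by simp)
    have ha1 : a = 1 → 2 ≤ m := by
      intro h
      rw [h] at ha
      obtain ⟨i, hi⟩ := Finset.card_pos.mp (show 0 < _ from ha ▸ Nat.one_pos)
      have h2 := (Finset.mem_filter.mp hi).2
      omega
    obtain ⟨A, M, D, hDM, hM, hD, h1, h2, h3, h4⟩ := st_all ham ha1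
    -- match the deficient points
    let pts0 : Fin m ≃ {x // x ∈ M} := (Finset.equivFinOfCardEq hM).symm
    have hcq : Fintype.card {i : Fin m // r i + 2 = m}
        = Fintype.card {i : Fin m // (pts0 i).1 ∈ D} := by
      rw [Fintype.card_subtype, ← ha, ← hD, Fintype.card_subtype]
      rw [← Finset.card_image_of_injective (Finset.univ.filter (fun i => (pts0 i).1 ∈ D))
        (Subtype.val_injective.comp pts0.injective)]
      congr 1
      ext x
      simp only [Finset.mem_image, Finset.mem_filter, Finset.mem_univ, true_and,
        Function.comp_apply]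
      constructor
      · intro hx
        refine ⟨pts0.symm ⟨x, hDM hx⟩, ?_, ?_⟩
        · rw [Equiv.apply_symm_apply]
          exact hx
        · rw [Equiv.apply_symm_apply]
      · rintro ⟨i, hi, rfl⟩
        exact hi
    let σ : Equiv.Perm (Fin m) := (Fintype.equivOfCardEq hcq).extendSubtype
    let pts : Fin m → PP := fun i => (pts0 (σ i)).1
    have hinj : Function.Injective pts :=
      Subtype.val_injective.comp (pts0.injective.comp σ.injective)
    have hptsM : ∀ i, pts i ∈ M := fun i => (pts0 (σ i)).2
    have hrange : ∀ q, (∀ i, q ≠ pts i) → q ∉ M := by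
      intro q hq hqM
      apply hq (σ.symm (pts0.symm ⟨q, hqM⟩))
      change q = (pts0 (σ (σ.symm (pts0.symm ⟨q, hqM⟩)))).1
      rw [Equiv.apply_symm_apply, Equiv.apply_symm_apply]
    have hle' : ∀ i, mult A (pts i) ≤ r i := by
      intro i
      by_cases hi : r i + 2 = m
      · have : pts i ∈ D := Equiv.extendSubtype_mem (Fintype.equivOfCardEq hcq) i hi
        have := h2 _ this
        omega
      · have := h1 _ (hptsM i)
        have := hrm i
        omega
    have hsumM : ∑ p ∈ M, mult A p = ∑ i, mult A (pts i) := by
      have : M = Finset.univ.image pts := by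
        ext q
        constructor
        · intro hq
          by_contra hcon
          refine hrange q (fun i hi => hcon ?_) hq
          rw [hi]
          exact Finset.mem_image_of_mem _ (Finset.mem_univ i)
        · intro hq
          obtain ⟨i, -, rfl⟩ := Finset.mem_image.mp hq
          exact hptsM i
      rw [this, Finset.sum_image (fun _ _ _ _ h => hinj h)]
    obtain ⟨A', g1, g2, g3⟩ := raise pts hinj r A hle'
    obtain ⟨A'', k1, k2, k3⟩ := add_generic A' (Finset.univ.image pts) (n - A'.card)
    have hcardA : A''.card = n := by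
      rw [hsumM] at h3
      omega
    have e1 : ∀ i, mult A'' (pts i) = r i := by
      intro i
      rw [k2 _ (Finset.mem_image_of_mem _ (Finset.mem_univ i)), g2]
    have e2 : ∀ q, (∀ i, q ≠ pts i) → mult A'' q ≤ 2 := by
      intro q hq
      have h0 := h4 q (hrange q hq)
      rcases k3 q with h | h
      · rw [h]
        rcases g3 q hq with h' | h'
        · omega
        · exact h'
      · exact h
    have hcommon : ∀ p : PP, ∃ l ∈ A'', ¬ p.orthogonal l := by
      apply no_common_of_mult_lt
      intro p
      rw [hcardA]
      by_cases hp : ∃ i, p = pts i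
      · obtain ⟨i, rfl⟩ := hp
        rw [e1]
        have := hr3 i
        rw [Finset.mem_Icc] at this
        omega
      · push Not at hp
        have := e2 p hp
        omega
    apply realizable_of v hid A'' hcardA hcommon
    intro k hk3 hkn
    rw [vnum_of_pts A'' pts hinj r e1 e2 hk3]
    have h3 := hsum (fun j => if j = k then 1 else 0)
    rw [Finset.card_filter, h3]
    rw [Finset.sum_eq_single_of_mem k (Finset.mem_Icc.mpr ⟨hk3, hkn⟩)]
    · simp
    · intro b _ hb
      simp [hb]

end Pool.Agent.Results.MP_09693b_co.FewMultiple
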