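import Pool.Agent.Helper74.LineArr.Few

/-!
# Multiplicity vectors of line arrangements with a vertex of multiplicity `n - k`

For `n ≥ k + max (3, C(k, 2))` the multiplicity vectors of arrangements of `n` lines having a
vertex of multiplicity exactly `n - k` are described in terms of families of `k` lines.
-/

namespace Pool.Agent.Results.MP_09693b_co.LargePencil

open Pool.Agent.Helper74.LineArr
open Projectivization

open scoped Classical in
lemma core (A B J : Finset PP) (P : PP) (N : ℕ) (hJ : J ⊆ verts B) (hP : mult A P = N)
    (hPB : P ∉ verts B) (h1 : ∀ q ∈ verts B, mult A q = mult B q + if q ∈ J then 1 else 0)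
    (h2 : ∀ q, q ∉ verts B → q ≠ P → mult A q ≤ 2) (j : ℕ) (hj : 3 ≤ j) :
    vnum A j + (J.filter (fun q => mult B q = j)).card
      = vnum B j + (J.filter (fun q => mult B q = j - 1)).card + if j = N then 1 else 0 := by
  have hA : vnum A j = ((((verts B).filter (fun q => mult B q = j ∧ q ∉ J)) ∪
      (J.filter (fun q => mult B q = j - 1))) ∪ (if j = N then {P} else ∅)).card := by
    unfold vnum
    rw [← Set.ncard_coe_finset]
    congr 1
    ext q
    simp only [Set.mem_ofPred_eq, Finset.mem_coe, Finset.mem_union, Finset.mem_filter]
    by_cases hqP : q = P
    · subst hqP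
      have a1 : q ∉ J := fun h => hPB (hJ h)
      rw [hP]
      constructor
      · intro h
        right
        rw [if_pos h.symm]
        simp
      · rintro ((h | h) | h)
        · exact absurd h.1 hPB
        · exact absurd h.1 a1
        · split_ifs at h with h'
          · exact h'.symm
          · simp at h
    · have a2 : q ∉ (if j = N then ({P} : Finset PP) else ∅) := by
        split_ifs
        · simpa using hqP
        · simp
      by_cases hq : q ∈ verts B
      · rw [h1 q hq]
        by_cases hqJ : q ∈ J
        · rw [if_pos hqJ]
          constructor
          · intro h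
            exact Or.inl (Or.inr ⟨hqJ, by omega⟩)
          · rintro ((h | h) | h)
            · exact absurd hqJ h.2.2
            · omega
            · exact absurd h a2
        · rw [if_neg hqJ]
          constructor
          · intro h
            exact Or.inl (Or.inl ⟨hq, by omega, hqJ⟩)
          · rintro ((h | h) | h)
            · omega
            · exact absurd h.1 hqJ
            · exact absurd h a2
      · constructor
        · intro h
          have := h2 q hq hqP
          omega
        · rintro ((h | h) | h)
          · exact absurd h.1 hq
          · exact absurd (hJ h.1) hq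
          · exact absurd h a2
  have hB : vnum B j = ((verts B).filter (fun q => mult B q = j ∧ q ∉ J)).card
      + (J.filter (fun q => mult B q = j)).card := by
    rw [vnum_eq_card B (by omega : 2 ≤ j), ← Finset.card_union_of_disjoint]
    · congr 1
      ext q
      simp only [Finset.mem_union, Finset.mem_filter]
      constructor
      · rintro ⟨b1, b2⟩
        by_cases hqJ : q ∈ J
        · exact Or.inr ⟨hqJ, b2⟩
        · exact Or.inl ⟨b1, b2, hqJ⟩
      · rintro (⟨b1, b2, -⟩ | ⟨b1, b2⟩)
        · exact ⟨b1, b2⟩
        · exact ⟨hJ b1, b2⟩
    · rw [Finset.disjoint_left]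
      intro q hq hq'
      exact (Finset.mem_filter.mp hq).2.2 (Finset.mem_filter.mp hq').1
  rw [hA, hB, Finset.card_union_of_disjoint, Finset.card_union_of_disjoint]
  · split_ifs <;> simp <;> omega
  · rw [Finset.disjoint_left]
    intro q hq hq'
    exact (Finset.mem_filter.mp hq).2.2 (Finset.mem_filter.mp hq').1
  · rw [Finset.disjoint_left]
    intro q hq hq'
    split_ifs at hq' with h
    · rw [Finset.mem_singleton] at hq'
      subst hq'
      rw [Finset.mem_union] at hq
      rcases hq with hq | hq
      · exact hPB (Finset.mem_filter.mp hq).1
      · exact hPB (hJ (Finset.mem_filter.mp hq).1)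
    · simp at hq'

lemma card_verts_le (B : Finset PP) : (verts B).card ≤ B.card.choose 2 := by
  rw [← sum_mult B, Finset.card_eq_sum_ones]
  apply Finset.sum_le_sum
  intro p hp
  have := mem_verts.mp hp
  calc 1 = Nat.choose 2 2 := rfl
    _ ≤ _ := Nat.choose_le_choose 2 this

open scoped Classical in
theorem result (k n : ℕ) (hk : 1 ≤ k) (hn3 : k + 3 ≤ n) (hn : k + k.choose 2 ≤ n) (v : ℕ → ℕ) :
    (Realizable n v ∧ v (n - k) ≠ 0) ↔
      (∑ j ∈ Finset.Icc 2 (n - 1), j.choose 2 * v j = n.choose 2 ∧
        ∃ B : Finset PP, B.card = k ∧ ∃ s : ℕ → ℕ, (∀ j, 2 ≤ j → s j ≤ vnum B j) ∧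
          ∀ j ∈ Finset.Icc 3 (n - 1),
            v j + s j = vnum B j + s (j - 1) + if j = n - k then 1 else 0) := by
  constructor
  · rintro ⟨⟨A, hA, hc, hv⟩, hvk⟩
    constructor
    · have h := sum_choose_vnum A hc
      rw [hA] at h
      rw [← h]
      apply Finset.sum_congr rfl
      intro k hk
      rw [Finset.mem_Icc] at hk
      rw [hv k hk.1 hk.2]
    · -- the vertex of multiplicity `n - k`
      have h1 : vnum A (n - k) ≠ 0 := by
        rw [hv (n - k) (by omega) (by omega)]
        exact hvk
      obtain ⟨P, hP⟩ := Set.nonempty_of_ncard_ne_zero h1
      have hP' : mult A P = n - k := hP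
      set B := A.filter (fun l => ¬ P.orthogonal l) with hB
      have hsplit := Finset.card_filter_add_card_filter_not (s := A) (fun l => P.orthogonal l)
      have hBk : B.card = k := by
        have hP'' : (A.filter (fun l => P.orthogonal l)).card = n - k := hP'
        have hsplit' : (A.filter (fun l => P.orthogonal l)).card + B.card = A.card := by
          rw [← hsplit]
        rw [hP'', hA] at hsplit'
        omega
      have hPB : P ∉ verts B := by
        rw [mem_verts]
        have : mult B P = 0 := by
          unfold mult
          rw [Finset.card_eq_zero, Finset.filter_eq_empty_iff]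
          intro l hl
          exact (Finset.mem_filter.mp hl).2
        omega
      set J := (verts B).filter (fun q => ∃ l ∈ A, P.orthogonal l ∧ q.orthogonal l) with hJ
      have hm : ∀ q, q ≠ P → mult A q = mult B q
          + if ∃ l ∈ A, P.orthogonal l ∧ q.orthogonal l then 1 else 0 := by
        intro q hq
        have e1 : mult A q = ((A.filter (fun l => ¬ P.orthogonal l)).filter
            (fun l => q.orthogonal l)).card +
            ((A.filter (fun l => P.orthogonal l)).filter (fun l => q.orthogonal l)).card := by
          have := Finset.card_filter_add_card_filter_not (s := A.filter (fun l => q.orthogonal l))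
            (fun l => P.orthogonal l)
          rw [Finset.filter_filter, Finset.filter_filter] at this
          rw [Finset.filter_filter, Finset.filter_filter]
          unfold mult
          rw [← this, add_comm]
          congr 2
          · ext l
            simp only [Finset.mem_filter]
            tauto
          · ext l
            simp only [Finset.mem_filter]
            tauto
        rw [e1]
        unfold mult
        rw [← hB]
        congr 1
        split_ifs with h
        · obtain ⟨l, hl, hl1, hl2⟩ := h
          rw [Finset.card_eq_one]
          refine ⟨l, ?_⟩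
          ext l'
          simp only [Finset.mem_filter, Finset.mem_singleton]
          constructor
          · rintro ⟨⟨f1, f2⟩, f3⟩
            rcases uniq hl1 hl2 f2 f3 with h | h
            · exact absurd h.symm hq
            · exact h.symm
          · rintro rfl
            exact ⟨⟨hl, hl1⟩, hl2⟩
        · rw [Finset.card_eq_zero, Finset.filter_eq_empty_iff]
          intro l hl hql
          rw [Finset.mem_filter] at hl
          exact h ⟨l, hl.1, hl.2, hql⟩
      refine ⟨B, hBk, fun j => (J.filter (fun q => mult B q = j)).card, ?_, ?_⟩
      · intro j hj
        rw [vnum_eq_card B hj]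
        apply Finset.card_le_card
        apply Finset.filter_subset_filter
        exact Finset.filter_subset _ _
      · intro j hj
        rw [Finset.mem_Icc] at hj
        have h3 := core A B J P (n - k) (Finset.filter_subset _ _) hP' hPB ?_ ?_ j hj.1
        · rw [hv j (by omega) hj.2] at h3
          exact h3
        · intro q hq
          have hqP : q ≠ P := by
            rintro rfl
            exact hPB hq
          rw [hm q hqP]
          congr 1
          have : q ∈ J ↔ ∃ l ∈ A, P.orthogonal l ∧ q.orthogonal l := by
            rw [hJ, Finset.mem_filter]
            exact ⟨fun h => h.2, fun h => ⟨hq, h⟩⟩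
          split_ifs with i1 i2 i2
          · rfl
          · exact absurd (this.mpr i1) i2
          · exact absurd (this.mp i2) i1
          · rfl
        · intro q hq hqP
          rw [hm q hqP]
          rw [mem_verts] at hq
          split_ifs <;> omega
  · rintro ⟨hid, B, hBk, s, hs, hvs⟩
    -- choose the points on pencil lines
    have hch : ∀ j, ∃ X : Finset PP, 2 ≤ j → X ⊆ (verts B).filter (fun q => mult B q = j) ∧
        X.card = s j := by
      intro j
      by_cases hj : 2 ≤ j
      · have h1 := hs j hj
        rw [vnum_eq_card B hj] at h1
        obtain ⟨X, hX, hXc⟩ := Finset.exists_subset_card_eq h1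
        exact ⟨X, fun _ => ⟨hX, hXc⟩⟩
      · exact ⟨∅, fun h => absurd h hj⟩
    choose X hX using hch
    set J := (verts B).filter (fun q => q ∈ X (mult B q)) with hJ
    have hJj : ∀ j, 2 ≤ j → (J.filter (fun q => mult B q = j)).card = s j := by
      intro j hj
      rw [← (hX j hj).2]
      congr 1
      ext q
      simp only [hJ, Finset.mem_filter]
      constructor
      · rintro ⟨⟨_, b⟩, c⟩
        rwa [c] at b
      · intro hq
        have := Finset.mem_filter.mp ((hX j hj).1 hq)
        refine ⟨⟨this.1, ?_⟩, this.2⟩
        rw [this.2]
        exact hq
    have hJc : J.card ≤ k.choose 2 := by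
      rw [← hBk]
      exact (Finset.card_filter_le _ _).trans (card_verts_le B)
    obtain ⟨P, A₁, p1, p2, p3, p4, p5, p6, p7, -, -⟩ := add_point B (verts B) J
      (Finset.filter_subset _ _)
    obtain ⟨A, q1, q2, q3, q4⟩ := add_through_many A₁ (verts B) P (n - k - J.card)
    have hA : A.card = n := by omega
    have hP : mult A P = n - k := by omega
    have hPne : ∀ q ∈ verts B, q ≠ P := by
      rintro q hq rfl
      exact p1 hq
    have hm1 : ∀ q ∈ verts B, mult A q = mult B q + if q ∈ J then 1 else 0 := by
      intro q hq
      rw [q3 q hq (hPne q hq)]
      split_ifs with h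
      · exact p5 q h
      · exact p6 q hq h
    have hm2 : ∀ q, q ∉ verts B → q ≠ P → mult A q ≤ 2 := by
      intro q hq hqP
      have hqJ : q ∉ J := fun h => hq (Finset.mem_filter.mp h).1
      rw [mem_verts] at hq
      rcases q4 q hqP with h | h
      · rw [h]
        rcases p7 q hqJ hqP with h' | h'
        · omega
        · exact h'
      · exact h
    have hcore := fun j hj => core A B J P (n - k) (Finset.filter_subset _ _) hP p1 hm1 hm2 j hj
    have hcommon : ∀ p : PP, ∃ l ∈ A, ¬ p.orthogonal l := by
      apply no_common_of_mult_lt
      intro p
      rw [hA]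
      by_cases hp : p = P
      · subst hp
        omega
      · by_cases hpB : p ∈ verts B
        · rw [hm1 p hpB]
          have := mult_le_card B p
          split_ifs <;> omega
        · have := hm2 p hpB hp
          omega
    constructor
    · apply realizable_of v hid A hA hcommon
      intro j hj3 hjn
      have h1 := hvs j (Finset.mem_Icc.mpr ⟨hj3, hjn⟩)
      have h2 := hcore j hj3
      rw [hJj j (by omega), hJj (j - 1) (by omega)] at h2
      omega
    · have h1 := hvs (n - k) (Finset.mem_Icc.mpr ⟨by omega, by omega⟩)
      have h2 := hs (n - k) (by omega)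
      rw [if_pos rfl] at h1
      omega

end Pool.Agent.Results.MP_09693b_co.LargePencil
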