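import Pool.Agent.Helper74.LineArr.Comb

/-!
# Arrangements with only double and triple points

For all `n` and all `t ≤ n ^ 2 / 6 - n ^ (3 / 2)` some arrangement of `n` lines has exactly `t`
triple points, all its other vertices being double points.
-/

namespace Pool.Agent.Results.MP_09693b_co.TriplePoints

open Pool.Agent.Helper74.LineArr

theorem result (n t : ℕ) (hn : 3 ≤ n) (ht : (t : ℝ) ≤ (n : ℝ) ^ 2 / 6 - n * √n) :
    3 * t ≤ n.choose 2 ∧
    Realizable n (fun k => if k = 2 then n.choose 2 - 3 * t else if k = 3 then t else 0) := by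
  set q : ℝ := √n with hq
  have hn0 : (3 : ℝ) ≤ n := by exact_mod_cast hn
  have hqq : q * q = n := Real.mul_self_sqrt (by linarith)
  have hq0 : 0 < q := Real.sqrt_pos.mpr (by linarith)
  have ht0 : (0 : ℝ) ≤ t := Nat.cast_nonneg t
  have hq6 : 6 ≤ q := by
    by_contra hcon
    push Not at hcon
    have h1 : (n : ℝ) * q ≤ n ^ 2 / 6 := by linarith
    have h2 : (n : ℝ) ^ 2 / 6 = n * (q * q) / 6 := by rw [hqq]; ring
    rw [h2] at h1
    have h3 : 0 < (n : ℝ) * q := by positivity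
    nlinarith
  -- choose `M`
  have hex : ∃ k : ℕ, t < T (k + 1) := by
    refine ⟨6 * t + 10, ?_⟩
    have h := (T_bounds (6 * t + 10 + 1)).1
    nlinarith
  classical
  obtain ⟨k, hk, hmin⟩ : ∃ k : ℕ, t < T (k + 1) ∧ ∀ j < k, ¬ t < T (j + 1) :=
    ⟨Nat.find hex, Nat.find_spec hex, fun j hj => Nat.find_min hex hj⟩
  have hk0 : k ≠ 0 := by
    rintro rfl
    have := (T_bounds (0 + 1)).2
    omega
  obtain ⟨j, rfl⟩ := Nat.exists_eq_succ_of_ne_zero hk0
  have hj := hmin j (Nat.lt_succ_self j)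
  push Not at hj
  have b1 := (T_bounds (j + 1)).1
  have b2 := (T_bounds (j.succ + 1)).2
  have b3 : 6 * t < 6 * T (j.succ + 1) := by omega
  have e2 : (j.succ + 1) ^ 2 = (j + 1) ^ 2 + 2 * (j + 1) + 1 := by
    rw [Nat.succ_eq_add_one]
    ring
  rw [e2] at b2
  have hg : 3 * (t - T (j + 1)) ≤ j + 1 := by
    rw [Nat.succ_eq_add_one] at b2 b3
    omega
  set P := Nat.sqrt (t - T (j + 1)) with hP
  have hP1 : P * P ≤ t - T (j + 1) := Nat.sqrt_le _
  have hP3 : 3 * (P * P) ≤ j + 1 := by omega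
  have hmain : j + 1 + 4 * P + 1 ≤ n := by
    by_contra hcon
    push Not at hcon
    set M : ℝ := (j : ℝ) + 1 with hM
    set p : ℝ := (P : ℝ) with hp
    have r1 : (n : ℝ) ≤ M + 4 * p := by
      have : n ≤ j + 1 + 4 * P := by omega
      have h : ((n : ℕ) : ℝ) ≤ ((j + 1 + 4 * P : ℕ) : ℝ) := by exact_mod_cast this
      push_cast at h
      exact h
    have r2 : 3 * (p * p) ≤ M := by
      have h : ((3 * (P * P) : ℕ) : ℝ) ≤ ((j + 1 : ℕ) : ℝ) := by exact_mod_cast hP3
      push_cast at h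
      exact h
    have r3 : M ^ 2 + 2 ≤ 6 * t + 3 * M := by
      have : (j + 1) ^ 2 + 2 ≤ 6 * t + 3 * (j + 1) := by omega
      have h : (((j + 1) ^ 2 + 2 : ℕ) : ℝ) ≤ ((6 * t + 3 * (j + 1) : ℕ) : ℝ) := by
        exact_mod_cast this
      push_cast at h
      exact h
    have r4 : 6 * (t : ℝ) ≤ q ^ 4 - 6 * q ^ 3 := by
      have h2 : (n : ℝ) ^ 2 = q ^ 4 := by rw [← hqq]; ring
      have h3 : (n : ℝ) * q = q ^ 3 := by rw [← hqq]; ring
      have : 6 * (t : ℝ) ≤ (n : ℝ) ^ 2 - 6 * (n * q) := by linarith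
      rw [h2, h3] at this
      exact this
    have hp0 : 0 ≤ p := Nat.cast_nonneg P
    have hM1 : 1 ≤ M := by
      have : (0 : ℝ) ≤ j := Nat.cast_nonneg j
      linarith
    have r5 : M - 2 ≤ q ^ 2 - 3 * q := by
      by_contra hc
      push Not at hc
      have h0 : 0 ≤ q ^ 2 - 3 * q := by nlinarith
      have h1 : (q ^ 2 - 3 * q) ^ 2 < (M - 2) ^ 2 := by
        apply pow_lt_pow_left₀ hc h0 (by norm_num)
      nlinarith
    have r6 : 3 * (p * p) ≤ q * q := by nlinarith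
    have r7 : 3 * q - 2 ≤ 4 * p := by nlinarith
    nlinarith
  have hgood : Good (j + 1) n t := good_of hj hg hmain
  obtain ⟨S, c, -, -, hS, hZ⟩ := hgood
  have hn4 : 4 ≤ n := by
    have h36 : (36 : ℝ) ≤ n := by nlinarith
    have : 36 ≤ n := by exact_mod_cast h36
    omega
  exact realizable_arr (Nat.succ_pos j) S n t hn4 hS hZ

end Pool.Agent.Results.MP_09693b_co.TriplePoints
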